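import Pool.Agent.H95.WC.Main
import Pool.Agent.H91.L.W5h68_CP_Main

/-!
# The sign conjecture and coverings of affine spaces

Let `𝒜` be the category of Chow motives over the perfect field `k` with rational coefficients, `T l` its
Tate objects, `h(X)` the motive of `X` and `H_j` a Weil homology theory. To every separated scheme `X` of
finite type over `k` belongs its weight complex with compact support `W(X)` (Gillet and Soulé, Bondarko),
a complex of Chow motives up to homotopy; for smooth proper `X` it is the motive `h(X)` in degree zero.
Hypotheses `IsFlatWeightComplex`, `HasCoverings`: there are distinguished triangles for closed-open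
decompositions, `W` of an affine bundle is a Tate twist of `W` of the base, and the same holds for flat
morphisms with affine spaces as fibres (flat pull-back and localization), `W` of an open and closed
subscheme of `X` is a direct factor of `W(X)`, `W(Spec A)` is a retract of a shift of `W(𝔾_m × Spec A)` and
of the weight complexes of the coverings `s ^ d = u`, `u` a unit, and `W(Spec k)` is the unit object.

The sign conjecture `C⁺(X)` says that there is a correspondence `π : h(X) ⟶ h(X)` which is the identity
on the even and zero on the odd homology (`Sign`). The motives with this property are closed under
direct sums, direct summands and Tate twists. A complex of motives is `Null` if it is contractible modulo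
the morphisms which factor through motives which satisfy the sign conjecture; for the motive `h(X)` in
degree zero this is `C⁺(X)`.

Let `CBuilt n` be the smallest class of schemes over `k` which contains all separated schemes of finite
type of dimension at most `n` and is closed under closed-open decompositions (two out of three), certain
affine bundles (in both directions), division by `𝔾_m` and descent along the cyclic coverings
`s ^ d = u`, and which contains with `Spec A` and the closed subscheme `f = 0` of `Spec A` the covering
`∏_{c ∈ S} (w - c) = ∑ x_l f_l` of `𝔸^m_A`, for finite non-empty sets `S ⊆ k`, and conversely, if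
`|S| ≥ 2`, with `Spec A` and the covering the closed subscheme `f = 0`. There is no restriction on the
dimension of the schemes in this class.

For polynomials `f_1, …, f_m` in the variables `z_1, …, z_N` let `zeroS f` be the closed subscheme
`f_1 = … = f_m = 0` of the affine space, and `covS S f` the covering `∏_{c ∈ S} (w - c) = ∑ x_l f_l(z)` of
the affine space with the coordinates `z_1, …, z_N, x_1, …, x_m`. For a trilinear form
`t(x, y, z) = ∑ t_ijl x_i y_j z_l` the polynomials `bq t` are the bilinear forms `∑ t_ijl x_i y_j`; so
`covS {α, β} (bq t)` is the double covering `(w - α)(w - β) = t(x, y, z)`. We show:

* The sign conjecture for the smooth proper varieties of dimension at most `n` (if they are birational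
  models of all varieties of dimension at most `n`) is equivalent to the statement that the weight
  complexes of all schemes in `CBuilt n` are null, and to the same statement for the coverings
  `∏_{c ∈ S} (w - c) = t(x, y, z)` for all trilinear forms `t` over `k` with at most `n + 2` variables
  `z`, for one fixed set `S ⊆ k` with at least two elements. It implies the sign conjecture for all
  smooth proper varieties in `CBuilt n`, of any dimension.
* The weight complex of the covering `∏_{c ∈ S} (w - c) = ∑ x_l f_l(z)` is null if and only if the weight
  complex of `f = 0` is.
* Over a prime field the sign conjecture for all smooth proper varieties is equivalent to the statement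
  that the weight complexes of the coverings `∏_{c ∈ S} (w - c) = ∑_l z_l ∑_{(i, j) ∈ E_l} x_i y_j` are
  null, for all finite sets `E_l` of pairs.
* All these coverings are smooth over `k`; and the class `CBuilt n` contains the covering
  `∏_{c ∈ S} (w - c) = t(x, y, z)` if there are at most `n + 2` variables `z`, and the covering
  `∏_{c ∈ S} (w - c) = ∑ x_l f_l(z)` if there are at most `n + 1` variables `z_i`, or if the scheme `f = 0`
  has dimension at most `n`, or if `f_1, …, f_(n+1)` have degree at most two and all other `f_l` degree at
  most one (`2 ≠ 0` in `k`).

Since the sign conjecture and resolution of singularities are known for surfaces, the sign conjecture is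
true for all smooth proper varieties in `CBuilt 2`, of any dimension, for example if they have a
decomposition into locally closed pieces which are coverings of one of these kinds with `n = 2`.
-/

set_option autoImplicit false

open CategoryTheory Limits MonoidalCategory AlgebraicGeometry Pool.Agent.Y116.UV
  Pool.Agent.W5h93.EX Pool.Agent.W5h93.WC Pool.Agent.W5h68.CP Pool.Agent.H95.WC

universe v u v' u'

namespace Pool.Agent.Results.MP_56c18a_ag.CoveringsOfAffineSpaces

/-- **The sign conjecture and coverings of affine spaces.** See the explanations above. -/
theorem result {k : Type} [Field k] [PerfectField k] {𝒜 : Type u} [Category.{v} 𝒜] [Preadditive 𝒜]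
    [HasZeroObject 𝒜] [HasBinaryBiproducts 𝒜] [MonoidalCategory 𝒜] [MonoidalPreadditive 𝒜]
    {𝒢 : Type u'} [Category.{v'} 𝒢] [Preadditive 𝒢] {T : ℤ → 𝒜} {H : ℤ → 𝒜 ⥤ 𝒢}
    (hH : IsSignHomology T H) {W : Sch k → HomotopyCategory 𝒜 (ComplexShape.up ℤ)}
    (hW : IsFlatWeightComplex T W) (hc : HasCoverings W) {Q : Sch k → Prop} (hQ : IsClass Q)
    (h : Sch k → 𝒜) (hh : ∀ X, Q X → Nonempty (W X ≅ cpx (h X))) :
    CovReduces Q (fun X => Sign H (h X)) (fun X => Null (Sign H) (W X).as) ∧ CovMembers k :=
  ⟨covReduces_wc (V := signCls hH) (fun l M hM => sign_twist hH l M hM) (sign_unit hH) hW hc hQ h hh,
    covMembers⟩

end Pool.Agent.Results.MP_56c18a_ag.CoveringsOfAffineSpaces
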