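import Pool.Agent.H39.Sign.Main

/-!
# The sign conjecture: torus actions, few monomials, finitely many varieties

For two varieties `X` and `Y` and `c ≥ 0` let `η(X, Y)(c)` be the dimension of the space spanned by the
algebraic correspondences of codimension `c` from `X` to `Y`, minus the dimensions of the subspaces of
those which vanish on the odd, and on the even cohomology of `X`. The Laurent polynomials
`∑ η(X, Y)(c) L^c` are compatible with blow-ups in `X` and in `Y`; so in characteristic zero `η` extends,
by the theorem of Bittner, to an invariant of pairs of separated schemes of finite type which is
additive in both arguments (hypothesis `IsPairDefect`).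

Let `X` be a closed subscheme of an affine space which is stable under a torus acting diagonally. It is
of complexity at most `n` if each stratum of `X` (given by the vanishing and non-vanishing of the
coordinates) has dimension at most `n` plus the dimension of the orbits of the torus in the stratum.
There is no restriction on the dimension and on the singularities of `X`. Let `𝓑_n` be the smallest
class of schemes which contains them and which contains each one of `X`, `Z`, `U` with the other two, for
the closed subschemes `Z` of separated schemes `X` of finite type with complement `U` (`Built n`), and let
`𝓜_n` be the smallest class with this property which contains `𝓑_n` and the smooth projective varieties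
for which the sign conjecture is true (`Made (Signed W) n`), for example the products of abelian
varieties and surfaces.

**Theorem.** Let `n` be such that the varieties of dimension at most `n` have smooth projective models
(all `n` in characteristic zero).

1. For every `X` in `𝓑_n`, of arbitrary dimension, there is a finite list of varieties `Y` of dimension
   at most `n`, which depends only on `X`, such that for all Weil cohomology theories and `η`: if `C⁺(Y)`
   holds for the `Y`, then `η(X, Y') = 0` for all `Y'` in `𝓑_n`, and `C⁺(X)` holds if `X` is a smooth
   projective variety.
2. The sign conjecture for all varieties of dimension at most `n` is equivalent to `η(X, Y) = 0` for all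
   `X` and `Y` in `𝓑_n`, and to `η(X, Y) = 0` for all separated schemes `X` and `Y` of finite type of
   dimension at most `n`.
3. If the sign conjecture is true in dimension at most `n`, then it is true for all smooth projective
   varieties in `𝓜_n`, of arbitrary dimension.
4. The class `𝓑_n` contains the schemes given by `c` linearly independent equations which have together
   at most `c + n + 1` monomials, and by any number of additional equations with at most two terms, in
   an affine space of arbitrary dimension (`Sparse n`), and the inverse images of the cones of dimension
   at most `n + 1` under all monomial maps between affine spaces, also with additional equations with at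
   most two terms (`Cones n`). (This is known from earlier work.)

Since `C⁺` is known in dimension at most two, 3. for `n = 2` says that `C⁺` is true for all smooth
projective varieties, of arbitrary dimension, which have a decomposition into locally closed pieces each
of which is given by `c` independent equations with together at most `c + 3` monomials and arbitrary
equations with two terms, with varying `c`, or is a variety for which `C⁺` is known.
-/

set_option autoImplicit false

open CategoryTheory AlgebraicGeometry Pool.Agent.Y116.UV Pool.Agent.W5h68.SP
  Pool.Agent.H39.Sign Pool.Agent.H914 Pool.Agent.H447
open Pool.Agent.H89.Dev (ModelsIn)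
open Pool.Agent.W5h93.EV (sch)
open Pool.Agent.W5h93.EX (schemes IsPairDefect SignDim)

universe v

namespace Pool.Agent.Results.MP_56c18a_ag.FewMonomials

/-- **The sign conjecture, torus actions of complexity at most `n` and equations with few monomials.** See
the explanations above. -/
theorem result (k : Type) [Field k] [PerfectField k] (𝒱 : VarClass k) :
    (∀ n : ℕ, ModelsIn (schemes 𝒱) n →
      (∀ X : Sch k, Built n X → ∃ 𝒴 : List 𝒱.Obj, (∀ Y ∈ 𝒴, topologicalKrullDim Y.V.X ≤ n) ∧
        ∀ (ops : CycleOps 𝒱) (W : WeilCohomology.{0, v} ops) (η : Sch k → Sch k → ℤ → ℤ),
          IsPairDefect W η → (∀ Y ∈ 𝒴, SignStd W Y) →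
            (∀ Y' : Sch k, Built n Y' → ∀ c, η X Y' c = 0) ∧
              ∀ X' : 𝒱.Obj, sch X'.V = X → SignStd W X') ∧
      ∀ (ops : CycleOps 𝒱) (W : WeilCohomology.{0, v} ops) (η : Sch k → Sch k → ℤ → ℤ),
        IsPairDefect W η →
          (SignDim W n ↔ PairsVanish η (Built n)) ∧
          (SignDim W n ↔ PairsVanish η fun X => FT True X ∧ topologicalKrullDim X.left ≤ n) ∧
          (SignDim W n → ∀ X : 𝒱.Obj, Made (Signed W) n (sch X.V) → SignStd W X)) ∧
    ∀ n : ℕ, Sparse (k := k) n (Built n) ∧ Cones (k := k) n (Built n) := by
  refine ⟨fun n hM => ⟨fun X hX => ?_, fun ops W η hη =>
    ⟨sign_iff_built hη hM, sign_iff_dim hη hM, fun h X hX => sign_made hη hM h X hX⟩⟩,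
    fun n => ⟨sparse_built' n, cones_built' n⟩⟩
  obtain ⟨L, h1, h2⟩ := fin_list.{v} hM X hX
  exact ⟨L, h1, fun ops W η hη h => h2 ⟨ops, W, η, hη⟩ h⟩

end Pool.Agent.Results.MP_56c18a_ag.FewMonomials
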