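import Pool.Agent.H9.CD.Main
import Pool.Agent.H91.L.W5h68_CP_Main

/-!
# The sign conjecture and completions of partial matrices

Let `k` be a perfect field. A partial matrix `Z` over `k` has at some places prescribed elements of `k`. If
`Z` is a partial square matrix let `glC Z` be the scheme of its invertible completions: the open subscheme
`det ≠ 0` of an affine space, where the entries of the matrix at the free places are independent
variables. For each partial matrix `Z` let `rkC Z` be the affine scheme of its completions of rank at most
three (it is given by the minors of size four). For `k = ℚ` and `k = 𝔽_p` (all elements of `k` are quotients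
of integers, `Frac k`) let `glS k Z` and `rkS k Z` be the schemes of the invertible matrices and of the
matrices of rank at most three with zeros at the places of the set `Z`.

Let `𝒜` be the category of Chow motives over `k` with rational coefficients, `T l` its Tate objects, `h(X)`
the motive of `X`, and let `H θ j` be homology theories with the usual formal properties
(`IsSignHomology`), for example the one of the problem. `Sign (H θ) (h X)` is the statement `C⁺(X)`: there is
an endomorphism of the Chow motive of `X` which induces the identity on the even and zero on the odd
homology.

To every separated scheme `X` of finite type over `k` belongs its weight complex with compact support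
`W(X)` (Gillet and Soulé, Bondarko), a bounded complex of Chow motives up to homotopy; for smooth
projective `X` it is the motive of `X` in degree zero. Hypotheses `IsWeightComplex`, `HasFiniteCovers`:
there are distinguished triangles for closed-open decompositions, `W` of an affine bundle is a Tate twist
of `W` of the base, `W(Spec A)` is a retract of a shift of `W(𝔾_m × Spec A)` and of the weight complexes of
the finite free coverings of `Spec A`, and `W(Spec k)` is the unit object. A complex is `Null` if it is
contractible modulo the morphisms which factor through motives with the property `Sign`.
`HasAlterations` is the theorem of de Jong; resolution of singularities is not assumed.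

**Theorem.** For every perfect field `k` the following are equivalent, for every homology theory:

1. `C⁺(X)` is true for all smooth projective varieties `X` over `k`.
2. The weight complexes of the schemes of the invertible completions of all partial square matrices over
   `k` are null. For `k = ℚ` and `k = 𝔽_p` it is enough to prescribe zeros.
3. The weight complexes of the schemes of the completions of rank at most three of all partial matrices
   over `k` are null. For `k = ℚ` and `k = 𝔽_p` it is enough to prescribe zeros.

For each `X` there are finitely many partial matrices, the same ones for all homology theories, such that
2. for these matrices implies `C⁺(X)`. The weight complex in 2. is null if `C⁺` is true in dimension at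
most the number of the free places; so it is null for partial matrices with at most two free places.

The universality of the completions of partial matrices is the theorem of helper57
(`MP_fc2ced_ag.MatrixCompletions`), here with alterations, finite lists and dimensions.
-/

set_option autoImplicit false

open CategoryTheory Limits MonoidalCategory AlgebraicGeometry Pool.Agent.Y116.UV
  Pool.Agent.W5h93.EX Pool.Agent.W5h93.WC Pool.Agent.W5h68.CP Pool.Agent.H91.QS Pool.Agent.H9.CD

universe v u v' u' w

namespace Pool.Agent.Results.MP_56c18a_ag.MatrixCompletions

/-- **The sign conjecture and completions of partial matrices.** See the explanations above. -/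
theorem result {k : Type} [Field k] [PerfectField k] {𝒜 : Type u} [Category.{v} 𝒜]
    [Preadditive 𝒜] [HasZeroObject 𝒜] [HasBinaryBiproducts 𝒜] [MonoidalCategory 𝒜]
    [MonoidalPreadditive 𝒜] {T : ℤ → 𝒜} {Θ : Type w} {𝒢 : Θ → Type u'}
    [∀ θ, Category.{v'} (𝒢 θ)] [∀ θ, Preadditive (𝒢 θ)] {H : ∀ θ, ℤ → 𝒜 ⥤ 𝒢 θ}
    (hH : ∀ θ, IsSignHomology T (H θ))
    {W : Sch k → HomotopyCategory 𝒜 (ComplexShape.up ℤ)} (hW : IsWeightComplex T W)
    (hc : HasFiniteCovers W) {Q : Sch k → Prop} (hQ : IsClass Q) (hA : HasAlterations Q)
    (h : Sch k → 𝒜) (hh : ∀ X, Q X → Nonempty (W X ≅ cpx (h X))) :
    CompletionsDecide Q (fun θ X => Sign (H θ) (h X)) (fun θ X => Null (Sign (H θ)) (W X).as) :=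
  completionsDecide_wc (V := fun θ => signCls (hH θ)) (fun θ l M hM => sign_twist (hH θ) l M hM)
    (fun θ => sign_unit (hH θ)) hW hc hQ hA h hh

end Pool.Agent.Results.MP_56c18a_ag.MatrixCompletions
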