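import Pool.Agent.H91.QS.Main
import Pool.Agent.H91.L.W5h68_CP_Main

/-!
# The sign conjecture and systems of quadratic equations

Let `𝒜` be the category of Chow motives over the perfect field `k` of characteristic `≠ 2` with rational
coefficients, `T l` its Tate objects, `h(X)` the motive of `X` and `H_j` a Weil homology theory. To every
separated scheme `X` of finite type over `k` belongs its weight complex with compact support `W(X)`
(Gillet and Soulé, Bondarko), a complex of Chow motives up to homotopy; for smooth proper `X` it is the
motive `h(X)` in degree zero.

The sign conjecture `C⁺(X)` says that there is a correspondence `π : h(X) ⟶ h(X)` which is the identity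
on the even and zero on the odd homology (`Sign`). The motives with this property are closed under
direct sums, direct summands and Tate twists. A complex of motives is `Null` if it is contractible modulo
the morphisms which factor through motives which satisfy the sign conjecture; for the motive `h(X)` in
degree zero this is `C⁺(X)`.

Let `Built k n` be the smallest class of schemes which contains the affine schemes of dimension at most
`n` and is closed under closed-open decompositions (two out of three), affine bundles (in both
directions), division by `𝔾_m` and descent along the coverings `s ^ d = u`, `u` a unit. We show:

* `Built k n` contains all schemes given by `r + 1` quadratic equations and any number of linear equations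
  in any number of variables over an affine base `Spec A`, if `dim A + r ≤ n`. It contains all closed
  subschemes of projective spaces which are the intersection of `n + 1` quadrics and hyperplanes.
* The sign conjecture for the smooth proper varieties of dimension at most `n` (if they are birational
  models of all varieties of dimension at most `n`) is equivalent to the statement that the weight
  complexes of all schemes in `Built k n` are null; and it implies the sign conjecture for all smooth
  proper varieties in `Built k n`, of any dimension.
* If the weight complexes of the affine schemes given by `n + 2` quadratic equations are null, then the
  sign conjecture is true for the smooth proper varieties of dimension at most `n`.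

Since the sign conjecture and resolution of singularities are known for surfaces, the sign conjecture is
true for all smooth proper varieties, of any dimension, which have a decomposition into locally closed
pieces each given by quadratic equations over a surface, by two quadratic equations over a curve, or by
three quadratic equations over `k`, and by any number of linear equations. The sign conjecture for
threefolds is implied by the statement for systems of five quadratic equations, and it implies the
statement for systems of four quadratic equations.

The class here is not the class of `BuiltFromSurfaces` (schemes built from products): there the sign
conjecture for products of schemes of dimension at most `n` enters, here only the one for schemes of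
dimension at most `n`, and quadratic equations are not among the examples there.
-/

set_option autoImplicit false

open CategoryTheory Limits MonoidalCategory AlgebraicGeometry Pool.Agent.Y116.UV
  Pool.Agent.W5h93.EX Pool.Agent.W5h93.WC Pool.Agent.W5h68.CP Pool.Agent.H91.QS

universe v u v' u'

namespace Pool.Agent.Results.MP_56c18a_ag.QuadraticSystems

/-- **The sign conjecture and systems of quadratic equations.** See the explanations above. -/
theorem result {k : Type} [Field k] [PerfectField k] (h2 : (2 : k) ≠ 0) {𝒜 : Type u}
    [Category.{v} 𝒜] [Preadditive 𝒜] [HasZeroObject 𝒜] [HasBinaryBiproducts 𝒜] [MonoidalCategory 𝒜]
    [MonoidalPreadditive 𝒜] {𝒢 : Type u'} [Category.{v'} 𝒢] [Preadditive 𝒢] {T : ℤ → 𝒜}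
    {H : ℤ → 𝒜 ⥤ 𝒢} (hH : IsSignHomology T H)
    {W : Sch k → HomotopyCategory 𝒜 (ComplexShape.up ℤ)} (hW : IsWeightComplex T W)
    (hc : HasCoverings W) {Q : Sch k → Prop} (hQ : IsClass Q) (h : Sch k → 𝒜)
    (hh : ∀ X, Q X → Nonempty (W X ≅ cpx (h X))) :
    QuadReduces Q (fun X => Sign H (h X)) (fun X => Null (Sign H) (W X).as) ∧
      ∀ n, AffineQuadrics k n (Built k n) ∧ ProjectiveQuadrics k n (Built k n) :=
  ⟨quadReduces_wc (V := signCls hH) (fun l M hM => sign_twist hH l M hM) (sign_unit hH) hW hc hQ h hh,
    fun n => ⟨affineQuadrics_built h2 n, projectiveQuadrics_built h2 n⟩⟩

end Pool.Agent.Results.MP_56c18a_ag.QuadraticSystems
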